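import Mathlib
import Pool.Graph.R_pool_sql_team_seeded_3997aac3.Q157.Quiddity
import Pool.Agent.H92.Quid

/-!
Irreducible solutions of `(E_N)` of size more than `34 N`, for a set of `N` of positive density.
The proof is in `Pool.Agent.H92.Quid`: a product theorem for solutions with `M = Id` none of whose
blocks, up to the trivial ones, has continuant `± 1`, and seven base solutions.
-/

namespace Pool.Agent.Results.MP_8835a9_co.LongMultiples

open Matrix Q157.Quiddity Pool.Agent.H92.Quid

/-- (1) Let `N₀ = 19 * 29 * 37 * 67 * 103 * 149 * 239` and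
`L₀ = 25 * 49 * 81 * 121 * 169 * 296 * 289`. For every `m ≥ 1` coprime to `N₀ L₀`, `(E_{N₀ m})` has an
irreducible solution of size `L₀ m`, which is more than `34` times `N₀ m`.
(2) In particular (negated form of the question): for every `K` there are `N ≥ 2`, `N ≥ K`, and an
irreducible solution of `(E_N)` of size at least `N + K`, even of size more than `34 N`. -/
theorem result :
    (∀ m : ℕ, 1 ≤ m → Nat.Coprime m ((19 * 29 * 37 * 67 * 103 * 149 * 239) *
        (25 * 49 * 81 * 121 * 169 * 296 * 289)) →
      ∃ c : List (ZMod ((19 * 29 * 37 * 67 * 103 * 149 * 239) * m)), IsIrreducibleSolution c ∧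
        c.length = (25 * 49 * 81 * 121 * 169 * 296 * 289) * m ∧
        34 * ((19 * 29 * 37 * 67 * 103 * 149 * 239) * m) < c.length) ∧
    ∀ K : ℕ, ∃ N : ℕ, 2 ≤ N ∧ K ≤ N ∧ ∃ c : List (ZMod N),
      IsIrreducibleSolution c ∧ N + K ≤ c.length ∧ 34 * N < c.length := by
  have h1 : ∀ m : ℕ, 1 ≤ m → Nat.Coprime m ((19 * 29 * 37 * 67 * 103 * 149 * 239) *
        (25 * 49 * 81 * 121 * 169 * 296 * 289)) →
      ∃ c : List (ZMod ((19 * 29 * 37 * 67 * 103 * 149 * 239) * m)), IsIrreducibleSolution c ∧
        c.length = (25 * 49 * 81 * 121 * 169 * 296 * 289) * m ∧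
        34 * ((19 * 29 * 37 * 67 * 103 * 149 * 239) * m) < c.length := by
    intro m hm hc
    obtain ⟨a, ha⟩ := ex_mul base ⟨_, good_two m⟩
      (Nat.Coprime.coprime_mul_right_right hc).symm (Nat.Coprime.coprime_mul_left_right hc).symm
    have hirr := ha.irreducible (by omega)
    refine ⟨_, hirr, ?_, ?_⟩
    · simp only [word, List.length_map, List.length_range']
    · simp only [word, List.length_map, List.length_range']; omega
  refine ⟨h1, fun K => ?_⟩
  obtain ⟨c, hc, hl, hl2⟩ := h1 ((19 * 29 * 37 * 67 * 103 * 149 * 239) *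
      (25 * 49 * 81 * 121 * 169 * 296 * 289) * (K + 1) + 1) (by omega) (by
    rw [Nat.coprime_comm, add_comm]
    exact (Nat.coprime_add_mul_left_right _ _ _).2 (Nat.coprime_one_right _))
  exact ⟨_, by omega, by omega, c, hc, by omega, hl2⟩

end Pool.Agent.Results.MP_8835a9_co.LongMultiples
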