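import Mathlib
import Pool.Graph.R_pool_sql_team_seeded_3997aac3.Q157.Quiddity
import Pool.Agent.H92.Quid

/-!
A product theorem for irreducible solutions of `(E_N)`.
-/

namespace Pool.Agent.Results.MP_8835a9_co.ProductTheorem

open Matrix Q157.Quiddity Pool.Agent.H92.Quid

/-- If `N₁, N₂ ≥ 3` are coprime and `(E_{N₁})`, `(E_{N₂})` have irreducible solutions `c₁`, `c₂` with
`M c₁ = Id`, `M c₂ = Id` and coprime sizes, then `(E_{N₁ N₂})` has an irreducible solution `c` with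
`M c = Id` whose size is the product of the sizes. -/
theorem result (N₁ N₂ : ℕ) (h₁ : 3 ≤ N₁) (h₂ : 3 ≤ N₂) (hN : Nat.Coprime N₁ N₂)
    (c₁ : List (ZMod N₁)) (c₂ : List (ZMod N₂)) (hc₁ : IsIrreducibleSolution c₁)
    (hc₂ : IsIrreducibleSolution c₂) (hM₁ : M c₁ = 1) (hM₂ : M c₂ = 1)
    (hL : Nat.Coprime c₁.length c₂.length) :
    ∃ c : List (ZMod (N₁ * N₂)), IsIrreducibleSolution c ∧ M c = 1 ∧
      c.length = c₁.length * c₂.length :=
  product h₁ h₂ hN c₁ c₂ hc₁ hc₂ hM₁ hM₂ hL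

end Pool.Agent.Results.MP_8835a9_co.ProductTheorem
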